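import Pool.Agent.AN.Z01
import Pool.Agent.AO.N09
import Pool.Agent.AO.V06
import Pool.Agent.AO.V07
import Pool.Agent.AO.Q15
import Pool.Agent.OR.I90

/-!
# MP_6c3636_al: Parker's conjecture, a theorem on composition factors (classical and alternating groups)

Parker's conjecture holds for every finite group `G` which has a series with the following factors: at the bottom
homomorphic images of direct products of classical groups in odd characteristic (linear, symplectic, unitary,
orthogonal) and of groups of the class `IsFactor`, then groups of the class `IsFactor`: solvable groups, alternating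
groups, classical groups in characteristic two, groups whose nonabelian simple sections are alternating, classical or
small, extensions and images of such groups, and the perfect classical groups in odd characteristic whose proper
subgroups of odd index are contained in proper subgroups of the class.
-/

namespace Pool.Agent.Results.MP_6c3636_al.ClassicalFactors

open Matrix

noncomputable section

section Conjecture

variable {G : Type} [Group G] {K : Type} [Field K] {n : ℕ}

/-- `B` is the Gram matrix of a nondegenerate symmetric bilinear form on `K^n` which is invariant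
under the representation `R`. -/
def IsInvGram (R : G →* GL (Fin n) K) (B : Matrix (Fin n) (Fin n) K) : Prop :=
  B.transpose = B ∧ B.det ≠ 0 ∧
    ∀ g, ((R g : Matrix (Fin n) (Fin n) K)).transpose * B * (R g : Matrix (Fin n) (Fin n) K) = B

/-- `R` is orthogonally stable: all invariant forms have the same determinant modulo squares. -/
def OrthStable (R : G →* GL (Fin n) K) : Prop :=
  ∀ B B' : Matrix (Fin n) (Fin n) K, IsInvGram R B → IsInvGram R B' →
    ∃ c : K, c ≠ 0 ∧ B'.det = B.det * c ^ 2

/-- the representation `R` affords the rational valued function `χ` -/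
def Affords (R : G →* GL (Fin n) K) (χ : G → ℚ) : Prop :=
  ∀ g, (R g : Matrix (Fin n) (Fin n) K).trace = (χ g : K)

/-- Parker's conjecture for the group `G`: for every rational valued orthogonally stable character
`χ` of `G` there is an odd squarefree `a` such that all invariant forms of all representations
over subfields of `ℝ` affording `χ` have the determinant `a` modulo squares. -/
def ParkerConjecture (G : Type) [Group G] : Prop :=
  ∀ χ : G → ℚ,
    (∃ (K : Subfield ℝ) (n : ℕ) (R : G →* GL (Fin n) K), Affords R χ ∧ OrthStable R) →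
    ∃ a : ℕ, Squarefree a ∧ Odd a ∧
      ∀ (K : Subfield ℝ) (n : ℕ) (R : G →* GL (Fin n) K), Affords R χ →
        ∀ B : Matrix (Fin n) (Fin n) K, IsInvGram R B →
          ∃ c : K, c ≠ 0 ∧ B.det = (a : K) * c ^ 2

end Conjecture

section Matrices

variable {F : Type} [Field F] {d : ℕ}

/-- `g` preserves the form `∑ σ (x i) * y (d - 1 - i)` -/
def Pres (σ : F ≃+* F) (g : GL (Fin d) F) : Prop :=
  (Matrix.of fun i j => σ ((g : Matrix (Fin d) (Fin d) F) j.rev i.rev)) *
    (g : Matrix (Fin d) (Fin d) F) = 1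

/-- `SL_d(F) ≤ H` -/
def IsLinear (H : Subgroup (GL (Fin d) F)) : Prop :=
  ∀ g : GL (Fin d) F, (g : Matrix (Fin d) (Fin d) F).det = 1 → g ∈ H

/-- the elements of `H` preserve the form of `σ`, and `H` contains all matrices of determinant one
which preserve this form -/
def IsIsometric (σ : F ≃+* F) (H : Subgroup (GL (Fin d) F)) : Prop :=
  (∀ g ∈ H, Pres σ g) ∧
    ∀ g : GL (Fin d) F, Pres σ g → (g : Matrix (Fin d) (Fin d) F).det = 1 → g ∈ H

/-- the quadratic form `∑ x i * x (d - 1 - i) + a * (x (d / 2 - 1) ^ 2 + x (d / 2) ^ 2)` (sum over `i < d / 2`) -/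
def quadForm (d : ℕ) (a : F) (x : Fin d → F) : F :=
  (∑ i : Fin d, if (i : ℕ) < d / 2 then x i * x (Fin.rev i) else 0) +
    a * ∑ i : Fin d, if (i : ℕ) + 1 = d / 2 ∨ (i : ℕ) = d / 2 then x i ^ 2 else 0

/-- the elements of `H` preserve the quadratic form `quadForm d a`, and `H` contains all isometries `g` of this form
such that the rank of `g - 1` is even -/
def IsOrthogonal (a : F) (H : Subgroup (GL (Fin d) F)) : Prop :=
  (∀ g ∈ H, ∀ x, quadForm d a ((g : Matrix (Fin d) (Fin d) F).mulVec x) = quadForm d a x) ∧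
    ∀ g : GL (Fin d) F, (∀ x, quadForm d a ((g : Matrix (Fin d) (Fin d) F).mulVec x) = quadForm d a x) →
      Even ((g : Matrix (Fin d) (Fin d) F) - 1).rank → g ∈ H

/-- `K` is the group of the isometries of determinant one of the form with the Gram matrix `J` (sesquilinear with
respect to `σ`) -/
def IsSpecialIsometry (σ : F ≃+* F) (J : Matrix (Fin d) (Fin d) F) (K : Subgroup (GL (Fin d) F)) : Prop :=
  ∀ g : GL (Fin d) F, g ∈ K ↔ ((g : Matrix (Fin d) (Fin d) F).map σ).transpose * J *
    (g : Matrix (Fin d) (Fin d) F) = J ∧ (g : Matrix (Fin d) (Fin d) F).det = 1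

end Matrices

/-- `H` is an orthogonal group for one of the two types of quadratic forms in even dimension -/
def IsOrthogonalEven {F : Type} [Field F] {d : ℕ} (H : Subgroup (GL (Fin d) F)) : Prop :=
  Even d ∧ ∃ a : F, (a = 0 ∨ ∀ x y : F, a * (x ^ 2 + y ^ 2) + x * y = 0 → x = 0 ∧ y = 0) ∧ IsOrthogonal a H

/-- `H` is a unitary group (`σ` of order two) or a symplectic group (`σ` the identity, `d` even, `2 < |F|`) -/
def IsUnitaryOrSymplectic {F : Type} [Field F] {d : ℕ} (H : Subgroup (GL (Fin d) F)) : Prop :=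
  ∃ σ : F ≃+* F, (∀ x, σ (σ x) = x) ∧ ((∀ x, σ x = x) → Even d ∧ 2 < Nat.card F) ∧ IsIsometric σ H

/-- `L` is isomorphic to a group `H` of matrices over a finite field of characteristic two with
`SL_d(F) ≤ H ≤ GL_d(F)`, or `SU_d(F) ≤ H ≤ GU_d(F)` (`σ` of order two), or `H = Sp_d(F)` (`σ` the
identity, `d` even, `2 < |F|`), or `Ω_d(F) ≤ H ≤ O_d(F)` (`d` even, both types of quadratic forms). -/
def IsClassicalEven (L : Type) [Group L] : Prop :=
  ∃ (F : Type) (_ : Field F) (d : ℕ) (H : Subgroup (GL (Fin d) F)),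
    Finite F ∧ (2 : F) = 0 ∧ Nonempty (H ≃* L) ∧ (IsLinear H ∨ IsUnitaryOrSymplectic H ∨ IsOrthogonalEven H)

section Odd

variable {F : Type} [Field F] {d : ℕ}

/-- `H = SL_d(F)` -/
def IsSL (H : Subgroup (GL (Fin d) F)) : Prop :=
  ∀ g : GL (Fin d) F, g ∈ H ↔ (g : Matrix (Fin d) (Fin d) F).det = 1

/-- `H = Sp_d(F)`, the isometry group of a nondegenerate alternating form with the Gram matrix `J` -/
def IsSp (H : Subgroup (GL (Fin d) F)) : Prop :=
  ∃ J : Matrix (Fin d) (Fin d) F, J.det ≠ 0 ∧ J.transpose = -J ∧ ∀ g : GL (Fin d) F, g ∈ H ↔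
    (g : Matrix (Fin d) (Fin d) F).transpose * J * (g : Matrix (Fin d) (Fin d) F) = J

/-- `H = SU_d(F)`, `3 ≤ d`, for a nondegenerate hermitian form with the Gram matrix `J` -/
def IsSU (H : Subgroup (GL (Fin d) F)) : Prop :=
  3 ≤ d ∧ ∃ (σ : F ≃+* F) (J : Matrix (Fin d) (Fin d) F), (∀ x, σ (σ x) = x) ∧ (∃ x, σ x ≠ x) ∧
    J.det ≠ 0 ∧ (J.map σ).transpose = J ∧ IsSpecialIsometry σ J H

/-- `H = Ω_d(F)`, `5 ≤ d`, the commutator subgroup of the special orthogonal group `K` of a nondegenerate
symmetric bilinear form with the Gram matrix `J` -/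
def IsOmega (H : Subgroup (GL (Fin d) F)) : Prop :=
  5 ≤ d ∧ ∃ (J : Matrix (Fin d) (Fin d) F) (K : Subgroup (GL (Fin d) F)), J.det ≠ 0 ∧ J.transpose = J ∧
    IsSpecialIsometry (RingEquiv.refl F) J K ∧ H = ⁅K, K⁆

end Odd

/-- `S` is a homomorphic image of a group `H = SL_d(F)`, `Sp_d(F)`, `SU_d(F)` (`d ≥ 3`) or `Ω_d(F)` (`d ≥ 5`), for a
finite field `F` of odd characteristic and an arbitrary nondegenerate form -/
def IsClassicalOdd (S : Type) [Group S] : Prop :=
  ∃ (F : Type) (_ : Field F) (d : ℕ) (H : Subgroup (GL (Fin d) F)) (f : H →* S),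
    Finite F ∧ (2 : F) ≠ 0 ∧ Function.Surjective f ∧ (IsSL H ∨ IsSp H ∨ IsSU H ∨ IsOmega H)

section Groups

variable {F : Type} [Field F]

/-- Suzuki's unipotent matrices -/
def suzukiU (π : F ≃+* F) (a b : F) : Matrix (Fin 4) (Fin 4) F :=
  !![1, 0, 0, 0;
     a, 1, 0, 0;
     b, π a, 1, 0;
     a ^ 2 * π a + a * b + π b, a * π a + b, a, 1]

/-- the antidiagonal permutation matrix -/
def antidiag (F : Type) [Field F] : Matrix (Fin 4) (Fin 4) F :=
  !![0, 0, 0, 1;
     0, 0, 1, 0;
     0, 1, 0, 0;
     1, 0, 0, 0]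

/-- the Suzuki group, for a field of characteristic two and an automorphism `π` with
`π (π x) = x²` -/
def Suzuki (π : F ≃+* F) : Subgroup (GL (Fin 4) F) :=
  Subgroup.closure {g | (∃ a b : F, (g : Matrix (Fin 4) (Fin 4) F) = suzukiU π a b) ∨
    (g : Matrix (Fin 4) (Fin 4) F) = antidiag F}

/-- `S` is a Suzuki group `Sz(q)`, `q > 2` -/
def IsSuzuki (S : Type) [Group S] : Prop :=
  ∃ (F : Type) (_ : Field F) (_ : Finite F) (π : F ≃+* F), (2 : F) = 0 ∧
    (∀ x, π (π x) = x ^ 2) ∧ 2 < Nat.card F ∧ Nonempty (Suzuki π ≃* S)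

/-- the Mathieu group `M_11` of order 7920 -/
def M11 : Subgroup (Equiv.Perm (Fin 11)) :=
  Subgroup.closure {c[0, 1, 2, 3, 4, 5, 6, 7, 8, 9, 10], c[2, 6, 10, 7] * c[3, 9, 4, 5]}

/-- `S` has a subgroup `B` of index `> 2` and a subgroup `Q` of odd order, normal in `B`, such that
`B / Q` is commutative and `Q` is transitive on the cosets of `B` different from `B` -/
def OddRankOne (S : Type) [Group S] : Prop :=
  ∃ B Q : Subgroup S, Q ≤ B ∧ Odd (Nat.card Q) ∧ (∀ b ∈ B, ∀ q ∈ Q, b * q * b⁻¹ ∈ Q) ∧
    (∀ b ∈ B, ∀ b' ∈ B, b * b' * b⁻¹ * b'⁻¹ ∈ Q) ∧ 2 < B.index ∧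
    ∀ g h : S, g ∉ B → h ∉ B → ∃ q ∈ Q, ∃ b ∈ B, h = q * g * b

/-- The elements of `S` have orders dividing `4 r` with `r` odd, and every irreducible self dual
character `ψ` of even degree `n` of `S` over the algebraic closure of `ℚ_2` lies outside of the
principal `2`-block: for some `g` with conjugacy class `C` the difference `|C| (ψ(g) / n - 1)` of
the values of the central characters of `ψ` and `1` at the class sum of `g` is a unit. -/
def OutsidePrincipal (S : Type) [Group S] : Prop :=
  (∀ g : S, ∃ r : ℕ, Odd r ∧ g ^ (4 * r) = 1) ∧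
  ∀ (n : ℕ) (ρ : Representation (PadicAlgCl 2) S (Fin n → PadicAlgCl 2)), ρ.IsIrreducible →
    Even n → (∀ g, ρ.character g⁻¹ = ρ.character g) →
    ∃ g : S, ‖(Nat.card {x : S // IsConj g x} : PadicAlgCl 2) * (ρ.character g / n - 1)‖ = 1

end Groups

/-- `S` is an alternating group or a homomorphic image of a classical group in characteristic two -/
def AltOrClassical (S : Type) [Group S] : Prop :=
  (∃ n : ℕ, Nonempty (alternatingGroup (Fin n) ≃* S)) ∨
    ∃ (L : Type) (_ : Group L) (f : L →* S), IsClassicalEven L ∧ Function.Surjective f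

/-- `S` is alternating or an image of a classical group, or `S` is of the form `Sz(q)`, `M_11` or satisfies
`OddRankOne` or `OutsidePrincipal` -/
def Known (S : Type) [Group S] : Prop :=
  AltOrClassical S ∨ IsClassicalOdd S ∨ IsSuzuki S ∨ Nonempty (M11 ≃* S) ∨ OddRankOne S ∨ OutsidePrincipal S

/-- every nonabelian simple section `H / N` of `S` satisfies `Known` -/
def KnownSections (S : Type) [Group S] : Prop :=
  ∀ (H : Subgroup S) (N : Subgroup H) [N.Normal], IsSimpleGroup (H ⧸ N) →
    (∃ x y : H ⧸ N, x * y ≠ y * x) → Known (H ⧸ N)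

/-- the groups which are allowed as upper factors -/
inductive IsFactor : (S : Type) → [Group S] → Prop
  | sections (S : Type) [Group S] : KnownSections S → IsFactor S
  | even (S : Type) [Group S] : AltOrClassical S → IsFactor S
  | odd (S : Type) [Group S] (M : Subgroup S → Subgroup S) : IsClassicalOdd S → commutator S = ⊤ →
      (∀ X : Subgroup S, X ≠ ⊤ → Odd X.index → X ≤ M X ∧ M X ≠ ⊤) →
      (∀ X : Subgroup S, X ≠ ⊤ → Odd X.index → IsFactor (M X)) → IsFactor S
  | extension (S : Type) [Group S] (N : Subgroup S) [N.Normal] : IsFactor N → IsFactor (S ⧸ N) → IsFactor S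
  | image (S T : Type) [Group S] [Group T] (f : S →* T) : Finite S → Function.Surjective f → IsFactor S →
      IsFactor T

/-- the groups with a series whose lowest term is built from classical groups in odd characteristic and groups of the
class `IsFactor`, and whose other factors are in the class `IsFactor` -/
inductive HasSeries : (G : Type) → [Group G] → Prop
  | factor (G : Type) [Group G] : IsFactor G → HasSeries G
  | classical (G : Type) [Group G] : IsClassicalOdd G → HasSeries G
  | product (G H : Type) [Group G] [Group H] : HasSeries G → HasSeries H → HasSeries (G × H)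
  | image (G H : Type) [Group G] [Group H] (f : G →* H) : Finite G → Function.Surjective f → HasSeries G →
      HasSeries H
  | step (G : Type) [Group G] (N : Subgroup G) [N.Normal] : HasSeries N → IsFactor (G ⧸ N) → HasSeries G

theorem quad_eq {F : Type} [Field F] (d : ℕ) (a : F) (x : Fin d → F) : quadForm d a x = OR.Qa d a x := by
  refine congrArg₂ (· + ·) rfl (congrArg (a * ·) (Finset.sum_congr rfl fun i _ => ?_))
  by_cases h : (i : ℕ) + 1 = d / 2 ∨ (i : ℕ) = d / 2
  · rw [if_pos h]
    exact (if_pos h).symm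
  · rw [if_neg h]
    exact (if_neg h).symm

theorem ex_altOrClassical {S : Type} [Group S] [Finite S] (h : AltOrClassical S) : CF.Ex S := by
  rcases h with ⟨n, ⟨e⟩⟩ | ⟨L, _, f, ⟨F, _, d, H, hf, h2, ⟨e⟩, hH⟩, hs⟩
  · exact CF.ex_congr e (AN.ex_alternating n)
  · have hL : Finite L := Finite.of_equiv H e.toEquiv
    refine CF.ex_quot f hs (CF.ex_congr e ?_)
    rcases hH with hH | ⟨σ, h1, h3, h4, h5⟩ | ⟨h1, a, h3, h4, h5⟩
    · exact CF.ex_matrix h2 H (Or.inl hH)
    · exact CF.ex_matrix h2 H (Or.inr ⟨σ, h1, h3, fun g hg => h4 g hg, fun g hg h => h5 g hg h⟩)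
    · have hch : CharP F 2 := CharTwo.of_one_ne_zero_of_two_eq_zero one_ne_zero h2
      refine OR.ex_Om' h1 a H ?_ (fun g hg x => ?_)
      · rw [OR.Om, Subgroup.closure_le]
        rintro g ⟨hg, hr⟩
        refine h5 g (fun x => ?_) hr
        rw [quad_eq, quad_eq]
        exact hg x
      · rw [← quad_eq, ← quad_eq]
        exact h4 g hg x

theorem mem_sp {F : Type} [Field F] {d : ℕ} {J : Matrix (Fin d) (Fin d) F} {g : GL (Fin d) F} :
    g ∈ AO.MG.IG J (RingEquiv.refl F) ↔
      (g : Matrix (Fin d) (Fin d) F).transpose * J * (g : Matrix (Fin d) (Fin d) F) = J := by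
  have h1 : (g : Matrix (Fin d) (Fin d) F).map (RingEquiv.refl F) = (g : Matrix (Fin d) (Fin d) F) := by
    ext i j
    rfl
  show ((g : Matrix (Fin d) (Fin d) F).map (RingEquiv.refl F)).transpose * J *
    (g : Matrix (Fin d) (Fin d) F) = J ↔ _
  rw [h1]

theorem mem_si {F : Type} [Field F] {d : ℕ} {σ : F ≃+* F} {J : Matrix (Fin d) (Fin d) F}
    {K : Subgroup (GL (Fin d) F)} (h : IsSpecialIsometry σ J K) :
    K = AO.MG.IG J σ ⊓ AO.MG.DT (Fin d) F := by
  ext g
  rw [h g, Subgroup.mem_inf]
  have h1 : g ∈ AO.MG.DT (Fin d) F ↔ (g : Matrix (Fin d) (Fin d) F).det = 1 := by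
    show g ∈ (Matrix.GeneralLinearGroup.det : GL (Fin d) F →* Fˣ).ker ↔ _
    rw [MonoidHom.mem_ker, Units.ext_iff]
    exact Iff.rfl
  rw [h1]
  exact Iff.rfl

theorem ab_odd {S : Type} [Group S] [Finite S] (h : IsClassicalOdd S) : ParkerGL.AB Parker.ctx2 S := by
  obtain ⟨F, _, d, H, f, hF, h2, hf, hH⟩ := h
  have hfin : Finite H := inferInstance
  refine ParkerGL.ab_quot f hf ?_
  rcases hH with hH | ⟨J, hdet, hJ, hH⟩ | ⟨hd, σ, J, hs, hne, hdet, hJ, hH⟩ | ⟨hd, J, K, hdet, hJ, hK, hH⟩
  · have h1 : H = CF.SLg d F := by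
      ext g
      rw [hH g]
      exact Iff.rfl
    subst h1
    rcases Nat.eq_zero_or_pos d with h0 | h0
    · subst h0
      exact ParkerGL.F04_aux.ab_triv fun x => Subtype.ext (Units.ext (Matrix.ext fun i => i.elim0))
    · exact ⟨AO.MG.gl_propA h0 F h2, AO.MG.gl_propB h0 F h2⟩
  · have h1 : H = AO.MG.IG J (RingEquiv.refl F) := by
      ext g
      rw [hH g, mem_sp]
    subst h1
    rcases Nat.eq_zero_or_pos d with h0 | h0
    · subst h0
      exact ParkerGL.F04_aux.ab_triv fun x => Subtype.ext (Units.ext (Matrix.ext fun i => i.elim0))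
    · exact AO.MG.iso_sp h2 h0 hJ hdet
  · have h1 := mem_si hH
    subst h1
    exact AO.MG.iso_su h2 hs hne hd hJ hdet
  · have h1 := mem_si hK
    subst h1
    subst hH
    rcases Nat.even_or_odd' d with ⟨n, hn | hn⟩
    · by_cases hsq : IsSquare ((-1) ^ n * J.det)
      · exact AO.MG.iso_op h2 (by omega) hn hJ hdet hsq
      · obtain ⟨m, rfl⟩ : ∃ m, n = m + 1 := ⟨n - 1, by omega⟩
        exact AO.MG.iso_om h2 (by omega : 1 ≤ m) (by omega) hJ hdet hsq
    · exact AO.MG.iso_so h2 hd ⟨n, hn⟩ hJ hdet

theorem ex_known {S : Type} [Group S] [Finite S] (h : KnownSections S) : CF.Ex S := by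
  refine CF.E03_aux.ex_onSimple (Nat.card S) S rfl ?_
  intro H N hN hs hn
  have hn' : ∃ x y : H ⧸ N, x * y ≠ y * x := by
    by_contra hcon
    push Not at hcon
    exact hn hcon
  rcases h H N hs hn' with h1 | h1 | h1 | h1 | h1 | h1
  · exact fun _ => AN.ab_of_ex (ex_altOrClassical h1)
  · exact fun _ => ab_odd h1
  · exact Parker.cls_propAB' hs hn' (Or.inr (Or.inr (Or.inr (Or.inl h1))))
  · exact Parker.cls_propAB' hs hn' (Or.inr (Or.inr (Or.inr (Or.inr (Or.inr (Or.inl h1))))))
  · exact Parker.cls_propAB' hs hn' (Or.inr (Or.inr (Or.inr (Or.inr (Or.inr (Or.inr h1))))))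
  · exact fun _ => Parker.outP2_propAB h1

theorem ex_factor {S : Type} [Group S] (h : IsFactor S) : ∀ [Finite S], CF.Ex S := by
  induction h with
  | sections S h =>
    intro _
    exact ex_known h
  | even S h =>
    intro _
    exact ex_altOrClassical h
  | odd S M h hp h1 _ ih =>
    intro _
    exact CF.ex_perf0 hp (ab_odd h) fun X hX ho => ⟨M X, (h1 X hX ho).1, (h1 X hX ho).2, ih X hX ho⟩
  | extension S N _ _ ih1 ih2 =>
    intro _
    exact CF.ex_ext N ih1 ih2
  | image S T f hS hf _ ih =>
    intro _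
    exact CF.ex_quot f hf ih

theorem ab_series {G : Type} [Group G] (h : HasSeries G) : ∀ [Finite G], ParkerGL.AB Parker.ctx2 G := by
  induction h with
  | factor G h =>
    intro _
    exact AN.ab_of_ex (ex_factor h)
  | classical G h =>
    intro _
    exact ab_odd h
  | product G H _ _ ih1 ih2 =>
    intro hfin
    have h1 : Finite G := Finite.of_injective (fun g : G => (g, (1 : H))) fun a b h => congrArg Prod.fst h
    have h2 : Finite H := Finite.of_injective (fun g : H => ((1 : G), g)) fun a b h => congrArg Prod.snd h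
    exact ParkerGL.ab_prod ih1 ih2
  | image G H f hG hf _ ih =>
    intro _
    exact ParkerGL.ab_quot f hf ih
  | step G N _ hF ih =>
    intro _
    exact CF.ab_step N ih (ex_factor hF)

/-- Parker's conjecture holds for every finite group `G` with `HasSeries G`. -/
theorem result (G : Type) [Group G] [Finite G] (h : HasSeries G) : ParkerConjecture G := by
  have h4 : ParkerGL.AB Parker.ctx2 G := ab_series h
  exact Parker.parker_of_AB h4.1 h4.2

end

end Pool.Agent.Results.MP_6c3636_al.ClassicalFactors
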