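import Pool.Agent.Parker.R03

/-!
# MP_6c3636_al: Parker's conjecture, reduction to finite simple groups

If all nonabelian simple sections `S` of a finite group `G` satisfy two local conditions on their
irreducible characters (`EvenPart`, the `2`-adic form of Parker's conjecture for the irreducible
orthogonal characters of even degree in the principal `2`-block whose restriction to every proper
subgroup has a self dual constituent of odd degree, and `OddPart`, a condition on the fields of
values of the irreducible characters of odd degree), then Parker's conjecture holds for `G`.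
-/

namespace Pool.Agent.Results.MP_6c3636_al.ReductionToSimple

open Matrix

noncomputable section

section Statement

variable {G : Type} [Group G] {K : Type} [Field K] {n : ℕ}

/-- `B` is the Gram matrix of a nondegenerate symmetric bilinear form on `K^n` which is invariant
under the representation `R`. -/
def IsInvGram (R : G →* GL (Fin n) K) (B : Matrix (Fin n) (Fin n) K) : Prop :=
  B.transpose = B ∧ B.det ≠ 0 ∧
    ∀ g, ((R g : Matrix (Fin n) (Fin n) K)).transpose * B * (R g : Matrix (Fin n) (Fin n) K) = B

/-- `R` is orthogonally stable: all invariant forms have the same determinant modulo squares. -/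
def OrthStable (R : G →* GL (Fin n) K) : Prop :=
  ∀ B B' : Matrix (Fin n) (Fin n) K, IsInvGram R B → IsInvGram R B' →
    ∃ c : K, c ≠ 0 ∧ B'.det = B.det * c ^ 2

/-- the representation `R` affords the rational valued function `χ` -/
def Affords (R : G →* GL (Fin n) K) (χ : G → ℚ) : Prop :=
  ∀ g, (R g : Matrix (Fin n) (Fin n) K).trace = (χ g : K)

/-- Parker's conjecture for the group `G`: for every rational valued orthogonally stable character
`χ` of `G` there is an odd squarefree `a` such that all invariant forms of all representations
over subfields of `ℝ` affording `χ` have the determinant `a` modulo squares. -/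
def ParkerConjecture (G : Type) [Group G] : Prop :=
  ∀ χ : G → ℚ,
    (∃ (K : Subfield ℝ) (n : ℕ) (R : G →* GL (Fin n) K), Affords R χ ∧ OrthStable R) →
    ∃ a : ℕ, Squarefree a ∧ Odd a ∧
      ∀ (K : Subfield ℝ) (n : ℕ) (R : G →* GL (Fin n) K), Affords R χ →
        ∀ B : Matrix (Fin n) (Fin n) K, IsInvGram R B →
          ∃ c : K, c ≠ 0 ∧ B.det = (a : K) * c ^ 2

end Statement

section Local

variable {k Ω : Type} [Field k] [Field Ω] [Algebra k Ω] {S : Type} [Group S] {n : ℕ}

/-- the field `k(ψ)` generated by the values of the function `ψ` -/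
def valueField (k : Type) [Field k] [Algebra k Ω] (ψ : S → Ω) : IntermediateField k Ω :=
  IntermediateField.adjoin k (Set.range ψ)

/-- the Galois conjugate `γ ψ` -/
def conj (γ : Ω ≃ₐ[k] Ω) (ψ : S → Ω) : S → Ω := fun g => γ (ψ g)

/-- the dual `ψ*` -/
def dual (ψ : S → Ω) : S → Ω := fun g => ψ g⁻¹

/-- `ρ` is orthogonal: it has an invariant nondegenerate symmetric bilinear form. -/
def IsOrthogonal (ρ : Representation Ω S (Fin n → Ω)) : Prop :=
  ∃ β : LinearMap.BilinForm Ω (Fin n → Ω),
    (∀ x y, β x y = β y x) ∧ (∀ x, (∀ y, β x y = 0) → x = 0) ∧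
      ∀ g x y, β (ρ g x) (ρ g y) = β x y

/-- the determinant of the element `∑ s(g) g` of the rational group algebra in the
representation `ρ` -/
def elemDet (ρ : Representation Ω S (Fin n → Ω)) (s : S → ℚ) : Ω :=
  LinearMap.det (∑ᶠ g, (s g : Ω) • ρ g)

/-- `ρ` lies in the principal `2`-block: the central characters of `ρ` and of the trivial
representation agree modulo the maximal ideal (the numbers below are integral, so that their
absolute values are less than `1` if they are not `1`) -/
def InPrincipalBlock (v : Ω → ℝ) (ρ : Representation Ω S (Fin n → Ω)) : Prop :=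
  ∀ g : S, v ((Nat.card {x : S // IsConj g x} : Ω) * (ρ.character g / n - 1)) ≠ 1

/-- `τ` is irreducible of odd degree with a self dual character -/
def IsOddReal {V : Type} [AddCommGroup V] [Module Ω V] (τ : Representation Ω S V) : Prop :=
  τ.IsIrreducible ∧ Odd (Module.finrank Ω V) ∧ dual τ.character = τ.character

/-- `τ` has a self dual irreducible constituent of odd degree -/
def HasOddConstituent {V : Type} [AddCommGroup V] [Module Ω V] (τ : Representation Ω S V) :
    Prop :=
  ∃ W : Subrepresentation τ, IsOddReal W.toRepresentation

/-- the restriction of a representation to a subgroup -/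
def restriction {V : Type} [AddCommGroup V] [Module Ω V] (ρ : Representation Ω S V)
    (H : Subgroup S) : Representation Ω H V :=
  MonoidHom.comp ρ H.subtype

/-- the `2`-adic form of Parker's conjecture for `ρ`: for all skew `s` in the rational group algebra
with nonzero determinant in `ρ` the absolute value of this determinant is the square of the
absolute value of an element of the field of values -/
def HasSquareDet (k : Type) [Field k] [Algebra k Ω] (v : Ω → ℝ)
    (ρ : Representation Ω S (Fin n → Ω)) : Prop :=
  ∀ s : S → ℚ, (∀ g, s g⁻¹ = - s g) → elemDet ρ s ≠ 0 →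
    ∃ x ∈ valueField k ρ.character, v (elemDet ρ s) = v x ^ 2

/-- `EvenPart` over the fields `k`, `Ω` with the absolute value `v` of `Ω` -/
def EvenPartOver (k Ω : Type) [Field k] [Field Ω] [Algebra k Ω] (v : Ω → ℝ) (S : Type)
    [Group S] : Prop :=
  ∀ (n : ℕ) (ρ : Representation Ω S (Fin n → Ω)), ρ.IsIrreducible → Even n → IsOrthogonal ρ →
    InPrincipalBlock v ρ → (∀ H : Subgroup S, H ≠ ⊤ → HasOddConstituent (restriction ρ H)) →
    HasSquareDet k v ρ

/-- `OddPart` over the fields `k`, `Ω` with the absolute value `v` of `Ω` -/
def OddPartOver (k Ω : Type) [Field k] [Field Ω] [Algebra k Ω] (v : Ω → ℝ) (S : Type)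
    [Group S] : Prop :=
  ∀ (n : ℕ) (ρ : Representation Ω S (Fin n → Ω)), ρ.IsIrreducible → Odd n →
    ∀ γ : Ω ≃ₐ[k] Ω, conj γ ρ.character ≠ ρ.character →
      conj γ (conj γ ρ.character) = ρ.character →
      (dual ρ.character = ρ.character ∨ dual ρ.character = conj γ ρ.character) →
      ∃ d ∈ valueField k ρ.character, γ d = - d ∧ v d = 1

/-- The `2`-adic form of Parker's conjecture for the irreducible orthogonal characters `ψ` of even
degree of `S` (over the algebraic closure `Ω` of `k = ℚ_2`) which lie in the principal `2`-block
and whose restriction to every proper subgroup has a self dual irreducible constituent of odd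
degree: for every skew element `s` of the
rational group algebra whose determinant in the representation is nonzero (this determinant
represents the orthogonal determinant of `ψ`) the absolute value of this determinant is the square
of the absolute value of an element of `ℚ_2(ψ)`. -/
def EvenPart (S : Type) [Group S] : Prop :=
  EvenPartOver ℚ_[2] (PadicAlgCl 2) (fun x => ‖x‖) S

/-- The condition on the irreducible characters `ψ` of odd degree of `S` (over the algebraic
closure `Ω` of `k = ℚ_2`): if `γ` is an automorphism over `ℚ_2` with `γ ψ ≠ ψ`, `γ² ψ = ψ` and if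
`ψ` or `γ ψ` is the dual of `ψ`, then `ℚ_2(ψ)` has an element `d` of absolute value `1` with
`γ d = - d`. -/
def OddPart (S : Type) [Group S] : Prop :=
  OddPartOver ℚ_[2] (PadicAlgCl 2) (fun x => ‖x‖) S

end Local

/-- Reduction theorem: if all nonabelian simple sections `H / N` of the finite group `G` satisfy
`EvenPart` and `OddPart`, then Parker's conjecture holds for `G`. -/
theorem result (G : Type) [Group G] [Finite G]
    (h : ∀ (H : Subgroup G) (N : Subgroup H) [N.Normal], IsSimpleGroup (H ⧸ N) →
      (∃ x y : H ⧸ N, x * y ≠ y * x) → EvenPart (H ⧸ N) ∧ OddPart (H ⧸ N)) :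
    ParkerConjecture G := by
  refine Parker.parker_reduction' G fun H N hN hs hn => ?_
  obtain ⟨hA, hB⟩ := h H N hs hn
  refine ⟨?_, ?_⟩
  · intro n ρ hρ hn hO hb hr s hs hd
    have key : LinearMap.det (Parker.act ρ (fun g => (s g : PadicAlgCl 2))) = elemDet ρ s := by
      let _ := Fintype.ofFinite (H ⧸ N)
      rw [elemDet, finsum_eq_sum_of_fintype]
      rfl
    rw [key] at hd ⊢
    obtain ⟨β, h1, h2, h3⟩ := hO
    refine hA n ρ hρ hn ⟨β, h1, h2, h3⟩ (fun g hg => hb ⟨g, hg⟩) ?_ s hs hd
    intro U hU
    have h4 := hr U hU
    unfold Parker.NoOdd at h4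
    push Not at h4
    obtain ⟨W, hW, hodd, hsd⟩ := h4
    exact ⟨W, hW, hodd, funext hsd⟩
  · intro n ρ hρ hn γ h1 h2 h3
    refine hB n ρ hρ hn γ ?_ (funext h2) ?_
    · obtain ⟨g, hg⟩ := h1
      intro h4
      exact hg (congrFun h4 g)
    · rcases h3 with h3 | h3
      · exact Or.inl (funext h3)
      · exact Or.inr (funext h3)

end

end Pool.Agent.Results.MP_6c3636_al.ReductionToSimple
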